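import Pool.Agent.R722.LP.FINAL
import Pool.Agent.R722.LP.DEN
import Pool.Agent.R722.LP.LIP
import Pool.Agent.R722.LP.ADD
import Pool.Agent.R722.LP.COMP
import Pool.Agent.R722.LP.SIGN
import Pool.Agent.R722.LP.M1
import Pool.Agent.R722.LP.M2
import Pool.Agent.R722.LP.TOR
import Pool.Agent.R722.LP.CONE
import Pool.Agent.R722.LP.IA
import Pool.Agent.R722.LP.IB
import Pool.Agent.R722.LP.IC
import Pool.Agent.R722.LP.LA
import Pool.Agent.R722.LP.LB

set_option autoImplicit false

/-!
# Isometry-equivariant projections of `Lip₀(X)` onto `X*` for `X = L_p[0,1]` and `X = ℓ_p`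

Among the spaces `L_p[0,1]` and `ℓ_p` (`1 ≤ p < ∞`) exactly `ℓ_1` has the equivariant dual lifting
property for the group of all surjective linear isometries.
-/

namespace Pool.Agent.Results.MP_32ff52_an.FullAnswer

open MeasureTheory Pool.Agent.R514.SP Pool.Agent.R722.LP
open scoped ENNReal NNReal

/-- Let `1 ≤ p < ∞`.  For `X = L_p[0,1]` there is no linear map from `Lip₀(X)` to the dual of `X`, bounded or not,
which is a projection onto the dual and commutes with the compositions with all the surjective linear isometries of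
`X`.  For `X = ℓ_p` there is a bounded linear one if and only if `p = 1`. -/
theorem result (p : ℝ≥0∞) [Fact (1 ≤ p)] (hp : p ≠ ∞) :
    (¬ ∃ P : MapsToDual (Lp ℝ p (volume.restrict (Set.Icc (0 : ℝ) 1))), IsProjection P ∧
      ∀ g : Lp ℝ p (volume.restrict (Set.Icc (0 : ℝ) 1)) ≃ₗᵢ[ℝ]
        Lp ℝ p (volume.restrict (Set.Icc (0 : ℝ) 1)), Commutes P g.toContinuousLinearEquiv) ∧
    ((∃ P : MapsToDual (lp (fun _ : ℕ => ℝ) p), IsProjection P ∧ IsBounded P ∧
      ∀ g : lp (fun _ : ℕ => ℝ) p ≃ₗᵢ[ℝ] lp (fun _ : ℕ => ℝ) p,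
        Commutes P g.toContinuousLinearEquiv) ↔ p = 1) := by
  have hlip : S_LIP := lip den
  have hM : S_M := s_M v_ (m1 hlip add_ comp_) (m2 hlip add_ v_ comp_ sign_)
  exact ⟨noInterval hM tor cone (ic ia ib) p hp, seqIff (lb la) p hp⟩

end Pool.Agent.Results.MP_32ff52_an.FullAnswer
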