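import Mathlib
import Pool.Agent.R514.SP.Main
import Pool.Agent.R514.SP.Defs

set_option autoImplicit false

/-!
# The spaces `ℓ_p`, `1 < p < ∞`, have no isometry-equivariant projection of `Lip₀(X)` onto `X*`

Not even an unbounded linear one.  The mathematical proof is by helper276.
-/

open scoped ENNReal NNReal

namespace Pool.Agent.Results.MP_32ff52_an.SequenceSpacesFail

open Pool.Agent.R514.SP

/-- For `1 < p < ∞` and `X = ℓ_p` there is no linear map from `Lip₀(X)` to the dual of `X`, bounded or not, which is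
a projection onto the dual and commutes with the compositions with all the surjective linear isometries of `X`. -/
theorem result (p : ℝ≥0∞) [Fact (1 ≤ p)] (hp1 : 1 < p) (hp : p ≠ ∞) :
    ¬ ∃ P : MapsToDual (lp (fun _ : ℕ => ℝ) p), IsProjection P ∧
      ∀ g : lp (fun _ : ℕ => ℝ) p ≃ₗᵢ[ℝ] lp (fun _ : ℕ => ℝ) p, Commutes P g.toContinuousLinearEquiv := by
  rintro ⟨P, hP, hG⟩
  have e : Nonempty (Option (ℕ ⊕ (ℕ ⊕ ℕ)) ≃ ℕ) :=
    ⟨(Denumerable.eqv (Option (ℕ ⊕ (ℕ ⊕ ℕ))))⟩
  obtain ⟨e⟩ := e
  have h1 : 1 < p.toReal := by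
    have := (ENNReal.toReal_lt_toReal (by norm_num) hp).2 hp1
    simpa using this
  refine core hp h1 e P hP (fun g f f' h x => ?_)
  exact hG g f f' h x

end Pool.Agent.Results.MP_32ff52_an.SequenceSpacesFail
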